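import Mathlib

/-!
# `{P₄ + P₁, C₄}`-free graphs: the core argument

Everything is stated for a symmetric irreflexive relation `R`.
-/

namespace Pool.Q185.CK

/-- `R` is (the adjacency relation of) a `{P₄ + P₁, C₄}`-free graph. -/
structure FreeRel {V : Type*} (R : V → V → Prop) : Prop where
  sym : ∀ x y, R x y → R y x
  irr : ∀ x, ¬ R x x
  P : ∀ a b c d e, R a b → R b c → R c d → ¬ R a c → ¬ R a d → ¬ R b d →
    ¬ R e a → ¬ R e b → ¬ R e c → ¬ R e d → False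
  Q : ∀ a b c d, R a b → R b c → R c d → R d a → ¬ R a c → a ≠ c → ¬ R b d → b ≠ d → False

/-- `S` behaves like the vertex set of an induced cycle of length at least four. -/
structure Cyc {V : Type*} (R : V → V → Prop) (S : Set V) : Prop where
  ne : S.Nonempty
  one : ∀ x ∈ S, ∃ y ∈ S, R x y
  two : ∀ x ∈ S, ∀ y ∈ S, R x y → ∃ z ∈ S, R x z ∧ z ≠ y ∧ ¬ R z y

variable {V : Type*} {R : V → V → Prop}

theorem Cyc.not_clique {S : Set V} (hS : Cyc R S)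
    (h : ∀ x ∈ S, ∀ y ∈ S, x ≠ y → R x y) : False := by
  obtain ⟨x, hx⟩ := hS.ne
  obtain ⟨y, hy, hxy⟩ := hS.one x hx
  obtain ⟨z, hz, hxz, hzy, hn⟩ := hS.two x hx y hy hxy
  exact hn (h z hz y hy hzy)

/-- A clique at the end of the cycle can be discarded. -/
theorem Cyc.discard (hR : FreeRel R) {S : Set V} (hS : Cyc R S) (A B : V → Prop)
    (hA : ∀ x ∈ S, ∀ y ∈ S, A x → A y → x ≠ y → R x y)
    (hN : ∀ x ∈ S, A x → ∀ y ∈ S, R x y → A y ∨ B y)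
    (hB : ∀ z ∈ S, ∀ w ∈ S, B z → B w → z ≠ w → (∃ x ∈ S, A x ∧ R x z) →
      (∃ y ∈ S, A y ∧ R y w) → R z w) :
    ∀ x ∈ S, ¬ A x := by
  have key : ∀ x ∈ S, ∀ y ∈ S, A x → A y → R x y → False := by
    intro x hx y hy hAx hAy hxy
    obtain ⟨z, hz, hxz, hzy, hnzy⟩ := hS.two x hx y hy hxy
    obtain ⟨w, hw, hyw, hwx, hnwx⟩ := hS.two y hy x hx (hR.sym _ _ hxy)
    have hBz : B z := by
      rcases hN x hx hAx z hz hxz with h | h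
      · exact absurd (hA z hz y hy h hAy hzy) hnzy
      · exact h
    have hBw : B w := by
      rcases hN y hy hAy w hw hyw with h | h
      · exact absurd (hA w hw x hx h hAx hwx) hnwx
      · exact h
    have hzw : z ≠ w := by
      rintro rfl
      exact hnwx (hR.sym _ _ hxz)
    have h1 := hB z hz w hw hBz hBw hzw ⟨x, hx, hAx, hxz⟩ ⟨y, hy, hAy, hyw⟩
    exact hR.Q x z w y hxz h1 (hR.sym _ _ hyw) (hR.sym _ _ hxy)
      (fun h => hnwx (hR.sym _ _ h)) (Ne.symm hwx) hnzy hzy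
  intro x hx hAx
  obtain ⟨y, hy, hxy⟩ := hS.one x hx
  obtain ⟨z, hz, hxz, hzy, hnzy⟩ := hS.two x hx y hy hxy
  rcases hN x hx hAx y hy hxy with h1 | h1
  · exact key x hx y hy hAx h1 hxy
  · rcases hN x hx hAx z hz hxz with h2 | h2
    · exact key x hx z hz hAx h2 hxz
    · exact hnzy (hB z hz y hy h2 h1 hzy ⟨x, hx, hAx, hxz⟩ ⟨x, hx, hAx, hxy⟩)

/-- An induced cycle of length five. -/
structure Pent (R : V → V → Prop) (v1 v2 v3 v4 v5 : V) : Prop where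
  a12 : R v1 v2
  a23 : R v2 v3
  a34 : R v3 v4
  a45 : R v4 v5
  a51 : R v5 v1
  n13 : ¬ R v1 v3
  n24 : ¬ R v2 v4
  n35 : ¬ R v3 v5
  n41 : ¬ R v4 v1
  n52 : ¬ R v5 v2
  d13 : v1 ≠ v3
  d24 : v2 ≠ v4
  d35 : v3 ≠ v5
  d41 : v4 ≠ v1
  d52 : v5 ≠ v2

theorem Pent.of (hR : FreeRel R) {v1 v2 v3 v4 v5 : V} (a12 : R v1 v2) (a23 : R v2 v3)
    (a34 : R v3 v4) (a45 : R v4 v5) (a51 : R v5 v1) (n13 : ¬ R v1 v3) (n24 : ¬ R v2 v4)
    (n35 : ¬ R v3 v5) (n41 : ¬ R v4 v1) (n52 : ¬ R v5 v2) : Pent R v1 v2 v3 v4 v5 := by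
  refine ⟨a12, a23, a34, a45, a51, n13, n24, n35, n41, n52, ?_, ?_, ?_, ?_, ?_⟩
  · rintro rfl; exact n41 (hR.sym _ _ a34)
  · rintro rfl; exact n52 (hR.sym _ _ a45)
  · rintro rfl; exact n13 (hR.sym _ _ a51)
  · rintro rfl; exact n24 (hR.sym _ _ a12)
  · rintro rfl; exact n35 (hR.sym _ _ a23)

theorem Pent.rot {v1 v2 v3 v4 v5 : V} (h : Pent R v1 v2 v3 v4 v5) : Pent R v2 v3 v4 v5 v1 :=
  ⟨h.a23, h.a34, h.a45, h.a51, h.a12, h.n24, h.n35, h.n41, h.n52, h.n13,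
    h.d24, h.d35, h.d41, h.d52, h.d13⟩

/-- `x` is adjacent to exactly the consecutive vertices `a`, `b` of the cycle `a b c d e`. -/
def TypeA (R : V → V → Prop) (a b c d e x : V) : Prop :=
  R x a ∧ R x b ∧ ¬ R x c ∧ ¬ R x d ∧ ¬ R x e

/-- `x` is a clone of the vertex `b` of the cycle `a b c d e`. -/
def TypeK (R : V → V → Prop) (a c d e x : V) : Prop :=
  R x a ∧ R x c ∧ ¬ R x d ∧ ¬ R x e

theorem prop5 (p1 p2 p3 p4 p5 : Prop) (q1 : p5 → p2 → p1) (q2 : p1 → p3 → p2)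
    (q3 : p2 → p4 → p3) (q4 : p3 → p5 → p4) (q5 : p4 → p1 → p5)
    (w1 : ¬ p2 → ¬ p3 → ¬ p4 → ¬ p5 → False) (w2 : ¬ p3 → ¬ p4 → ¬ p5 → ¬ p1 → False)
    (w3 : ¬ p4 → ¬ p5 → ¬ p1 → ¬ p2 → False) (w4 : ¬ p5 → ¬ p1 → ¬ p2 → ¬ p3 → False)
    (w5 : ¬ p1 → ¬ p2 → ¬ p3 → ¬ p4 → False) :
    (p3 ∧ p5) ∨ (p5 ∧ p2 ∧ ¬ p3 ∧ ¬ p4) ∨ (p1 ∧ p3 ∧ ¬ p4 ∧ ¬ p5) ∨
    (p2 ∧ p4 ∧ ¬ p5 ∧ ¬ p1) ∨ (p4 ∧ p1 ∧ ¬ p2 ∧ ¬ p3) ∨
    (p1 ∧ p2 ∧ ¬ p3 ∧ ¬ p4 ∧ ¬ p5) ∨ (p2 ∧ p3 ∧ ¬ p4 ∧ ¬ p5 ∧ ¬ p1) ∨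
    (p3 ∧ p4 ∧ ¬ p5 ∧ ¬ p1 ∧ ¬ p2) ∨ (p4 ∧ p5 ∧ ¬ p1 ∧ ¬ p2 ∧ ¬ p3) ∨
    (p5 ∧ p1 ∧ ¬ p2 ∧ ¬ p3 ∧ ¬ p4) := by
  by_cases r1 : p1 <;> by_cases r2 : p2 <;> by_cases r3 : p3 <;>
    by_cases r4 : p4 <;> by_cases r5 : p5 <;>
    simp only [r1, r2, r3, r4, r5, not_true_eq_false, not_false_eq_true, forall_true_left,
      imp_false, and_true, and_false, or_false, or_true,
      IsEmpty.forall_iff] at q1 q2 q3 q4 q5 w1 w2 w3 w4 w5 ⊢

theorem classify (hR : FreeRel R) {v1 v2 v3 v4 v5 : V} (h : Pent R v1 v2 v3 v4 v5) (x : V) :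
    (R x v3 ∧ R x v5) ∨ TypeK R v5 v2 v3 v4 x ∨ TypeK R v1 v3 v4 v5 x ∨
    TypeK R v2 v4 v5 v1 x ∨ TypeK R v4 v1 v2 v3 x ∨
    TypeA R v1 v2 v3 v4 v5 x ∨ TypeA R v2 v3 v4 v5 v1 x ∨ TypeA R v3 v4 v5 v1 v2 x ∨
    TypeA R v4 v5 v1 v2 v3 x ∨ TypeA R v5 v1 v2 v3 v4 x := by
  obtain ⟨a12, a23, a34, a45, a51, n13, n24, n35, n41, n52, d13, d24, d35, d41, d52⟩ := h
  have a21 := hR.sym _ _ a12
  have a32 := hR.sym _ _ a23
  have a43 := hR.sym _ _ a34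
  have a54 := hR.sym _ _ a45
  have a15 := hR.sym _ _ a51
  have n31 : ¬ R v3 v1 := fun h => n13 (hR.sym _ _ h)
  have n42 : ¬ R v4 v2 := fun h => n24 (hR.sym _ _ h)
  have n53 : ¬ R v5 v3 := fun h => n35 (hR.sym _ _ h)
  have n14 : ¬ R v1 v4 := fun h => n41 (hR.sym _ _ h)
  have n25 : ¬ R v2 v5 := fun h => n52 (hR.sym _ _ h)
  by_cases e1 : x = v1
  · subst e1; exact Or.inr (Or.inl ⟨a15, a12, n13, n14⟩)
  by_cases e2 : x = v2
  · subst e2; exact Or.inr (Or.inr (Or.inl ⟨a21, a23, n24, n25⟩))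
  by_cases e3 : x = v3
  · subst e3; exact Or.inr (Or.inr (Or.inr (Or.inl ⟨a32, a34, n35, n31⟩)))
  by_cases e4 : x = v4
  · subst e4; exact Or.inl ⟨a43, a45⟩
  by_cases e5 : x = v5
  · subst e5; exact Or.inr (Or.inr (Or.inr (Or.inr (Or.inl ⟨a54, a51, n52, n53⟩))))
  have q1 : R x v5 → R x v2 → R x v1 := by
    intro h1 h2
    by_contra h3
    exact hR.Q x v5 v1 v2 h1 a51 a12 (hR.sym _ _ h2) h3 e1 n52 d52
  have q2 : R x v1 → R x v3 → R x v2 := by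
    intro h1 h2
    by_contra h3
    exact hR.Q x v1 v2 v3 h1 a12 a23 (hR.sym _ _ h2) h3 e2 n13 d13
  have q3 : R x v2 → R x v4 → R x v3 := by
    intro h1 h2
    by_contra h3
    exact hR.Q x v2 v3 v4 h1 a23 a34 (hR.sym _ _ h2) h3 e3 n24 d24
  have q4 : R x v3 → R x v5 → R x v4 := by
    intro h1 h2
    by_contra h3
    exact hR.Q x v3 v4 v5 h1 a34 a45 (hR.sym _ _ h2) h3 e4 n35 d35
  have q5 : R x v4 → R x v1 → R x v5 := by
    intro h1 h2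
    by_contra h3
    exact hR.Q x v4 v5 v1 h1 a45 a51 (hR.sym _ _ h2) h3 e5 n41 d41
  have p1 : ¬ R x v2 → ¬ R x v3 → ¬ R x v4 → ¬ R x v5 → False := fun h1 h2 h3 h4 =>
    hR.P v2 v3 v4 v5 x a23 a34 a45 n24 n25 n35 h1 h2 h3 h4
  have p2 : ¬ R x v3 → ¬ R x v4 → ¬ R x v5 → ¬ R x v1 → False := fun h1 h2 h3 h4 =>
    hR.P v3 v4 v5 v1 x a34 a45 a51 n35 n31 n41 h1 h2 h3 h4
  have p3 : ¬ R x v4 → ¬ R x v5 → ¬ R x v1 → ¬ R x v2 → False := fun h1 h2 h3 h4 =>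
    hR.P v4 v5 v1 v2 x a45 a51 a12 n41 n42 n52 h1 h2 h3 h4
  have p4 : ¬ R x v5 → ¬ R x v1 → ¬ R x v2 → ¬ R x v3 → False := fun h1 h2 h3 h4 =>
    hR.P v5 v1 v2 v3 x a51 a12 a23 n52 n53 n13 h1 h2 h3 h4
  have p5 : ¬ R x v1 → ¬ R x v2 → ¬ R x v3 → ¬ R x v4 → False := fun h1 h2 h3 h4 =>
    hR.P v1 v2 v3 v4 x a12 a23 a34 n13 n14 n24 h1 h2 h3 h4
  exact prop5 _ _ _ _ _ q1 q2 q3 q4 q5 p1 p2 p3 p4 p5

/-- Types `A_i` and `A_{i+2}` do not both occur. -/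
theorem not_A1_A3 (hR : FreeRel R) {v1 v2 v3 v4 v5 : V} (h : Pent R v1 v2 v3 v4 v5) (x y : V)
    (hx : TypeA R v1 v2 v3 v4 v5 x) (hy : TypeA R v3 v4 v5 v1 v2 y) : False := by
  obtain ⟨x1, x2, x3, x4, x5⟩ := hx
  obtain ⟨y3, y4, y5, y1, y2⟩ := hy
  by_cases hxy : R x y
  · refine hR.Q x v2 v3 y x2 h.a23 (hR.sym _ _ y3) (hR.sym _ _ hxy) x3 ?_
      (fun h1 => y2 (hR.sym _ _ h1)) ?_
    · rintro rfl
      exact h.n13 (hR.sym _ _ x1)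
    · rintro rfl
      exact h.n24 y4
  · exact hR.P x v2 v3 y v5 x2 h.a23 (hR.sym _ _ y3) x3 hxy (fun h1 => y2 (hR.sym _ _ h1))
      (fun h1 => x5 (hR.sym _ _ h1)) h.n52 (fun h1 => h.n35 (hR.sym _ _ h1))
      (fun h1 => y5 (hR.sym _ _ h1))

/-- The case of an induced cycle of length five. -/
theorem pent_case (hR : FreeRel R) {v1 v2 v3 v4 v5 : V} (h : Pent R v1 v2 v3 v4 v5)
    (h3 : ∀ x, ¬ TypeA R v3 v4 v5 v1 v2 x) (h4 : ∀ x, ¬ TypeA R v4 v5 v1 v2 v3 x)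
    (h5 : ∀ x, ¬ TypeA R v5 v1 v2 v3 v4 x)
    (h12 : (∃ x, TypeA R v2 v3 v4 v5 v1 x) → ∃ x, TypeA R v1 v2 v3 v4 v5 x)
    {S : Set V} (hS : Cyc R S) (hSK : ∀ x ∈ S, ¬ (R x v3 ∧ R x v5)) : False := by
  have hcl : ∀ x ∈ S, TypeK R v5 v2 v3 v4 x ∨ TypeK R v1 v3 v4 v5 x ∨
      TypeK R v2 v4 v5 v1 x ∨ TypeK R v4 v1 v2 v3 x ∨
      TypeA R v1 v2 v3 v4 v5 x ∨ TypeA R v2 v3 v4 v5 v1 x := by
    intro x hx
    have h6 := classify hR h x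
    have h7 := hSK x hx
    have h8 := h3 x
    have h9 := h4 x
    have h10 := h5 x
    tauto
  obtain ⟨a12, a23, a34, a45, a51, n13, n24, n35, n41, n52, d13, d24, d35, d41, d52⟩ := h
  have a21 := hR.sym _ _ a12
  have a32 := hR.sym _ _ a23
  have a43 := hR.sym _ _ a34
  have a54 := hR.sym _ _ a45
  have a15 := hR.sym _ _ a51
  have n31 : ¬ R v3 v1 := fun h => n13 (hR.sym _ _ h)
  have n42 : ¬ R v4 v2 := fun h => n24 (hR.sym _ _ h)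
  have n53 : ¬ R v5 v3 := fun h => n35 (hR.sym _ _ h)
  have n14 : ¬ R v1 v4 := fun h => n41 (hR.sym _ _ h)
  have n25 : ¬ R v2 v5 := fun h => n52 (hR.sym _ _ h)
  have sy := hR.sym
  have ns : ∀ {x y}, ¬ R x y → ¬ R y x := fun h1 h2 => h1 (sy _ _ h2)
  -- cliques of clones
  have k1 : ∀ x y, TypeK R v5 v2 v3 v4 x → TypeK R v5 v2 v3 v4 y → x ≠ y → R x y := by
    intro x y hx hy hne
    by_contra hn
    exact hR.Q v5 x v2 y (sy _ _ hx.1) hx.2.1 (sy _ _ hy.2.1) hy.1 n52 d52 hn hne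
  have k2 : ∀ x y, TypeK R v1 v3 v4 v5 x → TypeK R v1 v3 v4 v5 y → x ≠ y → R x y := by
    intro x y hx hy hne
    by_contra hn
    exact hR.Q v1 x v3 y (sy _ _ hx.1) hx.2.1 (sy _ _ hy.2.1) hy.1 n13 d13 hn hne
  have k3 : ∀ x y, TypeK R v2 v4 v5 v1 x → TypeK R v2 v4 v5 v1 y → x ≠ y → R x y := by
    intro x y hx hy hne
    by_contra hn
    exact hR.Q v2 x v4 y (sy _ _ hx.1) hx.2.1 (sy _ _ hy.2.1) hy.1 n24 d24 hn hne
  have k5 : ∀ x y, TypeK R v4 v1 v2 v3 x → TypeK R v4 v1 v2 v3 y → x ≠ y → R x y := by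
    intro x y hx hy hne
    by_contra hn
    exact hR.Q v4 x v1 y (sy _ _ hx.1) hx.2.1 (sy _ _ hy.2.1) hy.1 n41 d41 hn hne
  -- A1 complete to K1, K2; A2 complete to K2, K3
  have f11 : ∀ a x, TypeA R v1 v2 v3 v4 v5 a → TypeK R v5 v2 v3 v4 x → R a x := by
    intro a x ha hx
    by_contra hn
    exact hR.P x v5 v4 v3 a hx.1 a54 a43 hx.2.2.2 hx.2.2.1 n53 hn ha.2.2.2.2 ha.2.2.2.1 ha.2.2.1
  have f12 : ∀ a x, TypeA R v1 v2 v3 v4 v5 a → TypeK R v1 v3 v4 v5 x → R a x := by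
    intro a x ha hx
    by_contra hn
    exact hR.P x v3 v4 v5 a hx.2.1 a34 a45 hx.2.2.1 hx.2.2.2 n35 hn ha.2.2.1 ha.2.2.2.1 ha.2.2.2.2
  have f22 : ∀ a x, TypeA R v2 v3 v4 v5 v1 a → TypeK R v1 v3 v4 v5 x → R a x := by
    intro a x ha hx
    by_contra hn
    exact hR.P x v1 v5 v4 a hx.1 a15 a54 hx.2.2.2 hx.2.2.1 n14 hn ha.2.2.2.2 ha.2.2.2.1 ha.2.2.1
  have f23 : ∀ a x, TypeA R v2 v3 v4 v5 v1 a → TypeK R v2 v4 v5 v1 x → R a x := by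
    intro a x ha hx
    by_contra hn
    exact hR.P x v4 v5 v1 a hx.2.1 a45 a51 hx.2.2.1 hx.2.2.2 n41 hn ha.2.2.1 ha.2.2.2.1 ha.2.2.2.2
  have f4 : ∀ a b, TypeA R v1 v2 v3 v4 v5 a → TypeA R v2 v3 v4 v5 v1 b → R a b := by
    intro a b ha hb
    by_contra hn
    exact hR.P a v1 v5 v4 b ha.1 a15 a54 ha.2.2.2.2 ha.2.2.2.1 n14 (ns hn) hb.2.2.2.2 hb.2.2.2.1
      hb.2.2.1
  -- cliques A1, A2 if both occur
  have c1 : (∃ b, TypeA R v2 v3 v4 v5 v1 b) → ∀ a a', TypeA R v1 v2 v3 v4 v5 a →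
      TypeA R v1 v2 v3 v4 v5 a' → a ≠ a' → R a a' := by
    rintro ⟨b, hb⟩ a a' ha ha' hne
    by_contra hn
    refine hR.Q a v1 a' b ha.1 (sy _ _ ha'.1) (f4 a' b ha' hb) (sy _ _ (f4 a b ha hb)) hn hne
      (ns hb.2.2.2.2) ?_
    rintro rfl
    exact n13 hb.2.1
  have c2 : ∀ b b', TypeA R v2 v3 v4 v5 v1 b → TypeA R v2 v3 v4 v5 v1 b' → b ≠ b' → R b b' := by
    intro b b' hb hb' hne
    obtain ⟨a, ha⟩ := h12 ⟨b, hb⟩
    by_contra hn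
    refine hR.Q b v3 b' a hb.2.1 (sy _ _ hb'.2.1) (sy _ _ (f4 a b' ha hb')) (f4 a b ha hb) hn hne
      (ns ha.2.2.1) ?_
    rintro rfl
    exact n31 ha.1
  -- anticomplete pairs
  have z53 : ∀ x y, TypeK R v4 v1 v2 v3 x → TypeK R v2 v4 v5 v1 y → ¬ R x y := by
    intro x y hx hy hxy
    refine hR.Q x y v2 v1 hxy hy.1 a21 (sy _ _ hx.2.1) hx.2.2.1 ?_ hy.2.2.2 ?_
    · rintro rfl; exact n24 hx.1
    · rintro rfl; exact n14 hy.2.1
  have z52 : ∀ x y, TypeK R v4 v1 v2 v3 x → TypeK R v1 v3 v4 v5 y → ¬ R x y := by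
    intro x y hx hy hxy
    refine hR.Q x y v3 v4 hxy hy.2.1 a34 (sy _ _ hx.1) hx.2.2.2 ?_ hy.2.2.1 ?_
    · rintro rfl; exact n31 hx.2.1
    · rintro rfl; exact n41 hy.1
  have z5b : ∀ x y, TypeK R v4 v1 v2 v3 x → TypeA R v2 v3 v4 v5 v1 y → ¬ R x y := by
    intro x y hx hy hxy
    refine hR.Q x y v3 v4 hxy hy.2.1 a34 (sy _ _ hx.1) hx.2.2.2 ?_ hy.2.2.1 ?_
    · rintro rfl; exact n31 hx.2.1
    · rintro rfl; exact n42 hy.1
  have z31 : ∀ x y, TypeK R v2 v4 v5 v1 x → TypeK R v5 v2 v3 v4 y → ¬ R x y := by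
    intro x y hx hy hxy
    refine hR.Q x y v5 v4 hxy hy.1 a54 (sy _ _ hx.2.1) hx.2.2.1 ?_ hy.2.2.2 ?_
    · rintro rfl; exact n52 hx.1
    · rintro rfl; exact n42 hy.2.1
  -- vertices of type A1 with a neighbour of type K5 or K3 are complete to A1
  have g5 : ∀ x a a', TypeK R v4 v1 v2 v3 x → TypeA R v1 v2 v3 v4 v5 a →
      TypeA R v1 v2 v3 v4 v5 a' → R x a → a ≠ a' → R a a' := by
    intro x a a' hx ha ha' hxa hne
    by_contra hn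
    by_cases hxa' : R x a'
    · refine hR.Q a x a' v2 (sy _ _ hxa) hxa' ha'.2.1 (sy _ _ ha.2.1) hn hne hx.2.2.1 ?_
      rintro rfl
      exact n24 hx.1
    · exact hR.P v3 v4 x a a' a34 (sy _ _ hx.1) hxa (ns hx.2.2.2) (ns ha.2.2.1) (ns ha.2.2.2.1)
        ha'.2.2.1 ha'.2.2.2.1 (ns hxa') (ns hn)
  have g3 : ∀ x a a', TypeK R v2 v4 v5 v1 x → TypeA R v1 v2 v3 v4 v5 a →
      TypeA R v1 v2 v3 v4 v5 a' → R x a → a ≠ a' → R a a' := by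
    intro x a a' hx ha ha' hxa hne
    by_contra hn
    by_cases hxa' : R x a'
    · refine hR.Q a x a' v1 (sy _ _ hxa) hxa' ha'.1 (sy _ _ ha.1) hn hne hx.2.2.2 ?_
      rintro rfl
      exact n14 hx.2.1
    · exact hR.P v5 v4 x a a' a54 (sy _ _ hx.2.1) hxa (ns hx.2.2.1) (ns ha.2.2.2.2)
        (ns ha.2.2.2.1) ha'.2.2.2.2 ha'.2.2.2.1 (ns hxa') (ns hn)
  -- step 1: no K5
  have s5 : ∀ x ∈ S, ¬ TypeK R v4 v1 v2 v3 x := by
    refine hS.discard hR (fun x => TypeK R v4 v1 v2 v3 x)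
      (fun x => TypeK R v5 v2 v3 v4 x ∨ TypeA R v1 v2 v3 v4 v5 x) ?_ ?_ ?_
    · intro x _ y _ hx hy hne
      exact k5 x y hx hy hne
    · intro x _ hx y hy hxy
      rcases hcl y hy with h6 | h6 | h6 | h6 | h6 | h6
      · exact Or.inr (Or.inl h6)
      · exact absurd hxy (z52 x y hx h6)
      · exact absurd hxy (z53 x y hx h6)
      · exact Or.inl h6
      · exact Or.inr (Or.inr h6)
      · exact absurd hxy (z5b x y hx h6)
    · rintro z _ w _ hz hw hne ⟨x, _, hx, hxz⟩ _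
      rcases hz with hz | hz <;> rcases hw with hw | hw
      · exact k1 z w hz hw hne
      · exact sy _ _ (f11 w z hw hz)
      · exact f11 z w hz hw
      · exact g5 x z w hx hz hw hxz hne
  -- step 2: no K3
  have s3 : ∀ x ∈ S, ¬ TypeK R v2 v4 v5 v1 x := by
    refine hS.discard hR (fun x => TypeK R v2 v4 v5 v1 x)
      (fun x => TypeK R v1 v3 v4 v5 x ∨ TypeA R v1 v2 v3 v4 v5 x ∨ TypeA R v2 v3 v4 v5 v1 x)
      ?_ ?_ ?_
    · intro x _ y _ hx hy hne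
      exact k3 x y hx hy hne
    · intro x _ hx y hy hxy
      rcases hcl y hy with h6 | h6 | h6 | h6 | h6 | h6
      · exact absurd hxy (z31 x y hx h6)
      · exact Or.inr (Or.inl h6)
      · exact Or.inl h6
      · exact absurd h6 (s5 y hy)
      · exact Or.inr (Or.inr (Or.inl h6))
      · exact Or.inr (Or.inr (Or.inr h6))
    · rintro z _ w _ hz hw hne ⟨x, _, hx, hxz⟩ _
      rcases hz with hz | hz | hz <;> rcases hw with hw | hw | hw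
      · exact k2 z w hz hw hne
      · exact sy _ _ (f12 w z hw hz)
      · exact sy _ _ (f22 w z hw hz)
      · exact f12 z w hz hw
      · exact g3 x z w hx hz hw hxz hne
      · exact f4 z w hz hw
      · exact f22 z w hz hw
      · exact sy _ _ (f4 w z hw hz)
      · exact c2 z w hz hw hne
  -- step 3
  by_cases hcA : ∀ a ∈ S, ∀ a' ∈ S, TypeA R v1 v2 v3 v4 v5 a → TypeA R v1 v2 v3 v4 v5 a' →
      a ≠ a' → R a a'
  · have hT : ∀ z ∈ S, ∀ w ∈ S,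
        (TypeK R v1 v3 v4 v5 z ∨ TypeA R v1 v2 v3 v4 v5 z ∨ TypeA R v2 v3 v4 v5 v1 z) →
        (TypeK R v1 v3 v4 v5 w ∨ TypeA R v1 v2 v3 v4 v5 w ∨ TypeA R v2 v3 v4 v5 v1 w) →
        z ≠ w → R z w := by
      intro z hz' w hw' hz hw hne
      rcases hz with hz | hz | hz <;> rcases hw with hw | hw | hw
      · exact k2 z w hz hw hne
      · exact sy _ _ (f12 w z hw hz)
      · exact sy _ _ (f22 w z hw hz)
      · exact f12 z w hz hw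
      · exact hcA z hz' w hw' hz hw hne
      · exact f4 z w hz hw
      · exact f22 z w hz hw
      · exact sy _ _ (f4 w z hw hz)
      · exact c2 z w hz hw hne
    have s1 : ∀ x ∈ S, ¬ TypeK R v5 v2 v3 v4 x := by
      refine hS.discard hR (fun x => TypeK R v5 v2 v3 v4 x)
        (fun x => TypeK R v1 v3 v4 v5 x ∨ TypeA R v1 v2 v3 v4 v5 x ∨ TypeA R v2 v3 v4 v5 v1 x)
        ?_ ?_ ?_
      · intro x _ y _ hx hy hne
        exact k1 x y hx hy hne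
      · intro x _ hx y hy hxy
        rcases hcl y hy with h6 | h6 | h6 | h6 | h6 | h6
        · exact Or.inl h6
        · exact Or.inr (Or.inl h6)
        · exact absurd h6 (s3 y hy)
        · exact absurd h6 (s5 y hy)
        · exact Or.inr (Or.inr (Or.inl h6))
        · exact Or.inr (Or.inr (Or.inr h6))
      · intro z hz' w hw' hz hw hne _ _
        exact hT z hz' w hw' hz hw hne
    refine hS.not_clique (fun x hx y hy hne => hT x hx y hy ?_ ?_ hne)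
    · rcases hcl x hx with h6 | h6 | h6 | h6 | h6 | h6
      · exact absurd h6 (s1 x hx)
      · exact Or.inl h6
      · exact absurd h6 (s3 x hx)
      · exact absurd h6 (s5 x hx)
      · exact Or.inr (Or.inl h6)
      · exact Or.inr (Or.inr h6)
    · rcases hcl y hy with h6 | h6 | h6 | h6 | h6 | h6
      · exact absurd h6 (s1 y hy)
      · exact Or.inl h6
      · exact absurd h6 (s3 y hy)
      · exact absurd h6 (s5 y hy)
      · exact Or.inr (Or.inl h6)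
      · exact Or.inr (Or.inr h6)
  · push Not at hcA
    obtain ⟨a, haS, a', haS', ha, ha', hne, hn⟩ := hcA
    have hnb : ∀ x, ¬ TypeA R v2 v3 v4 v5 v1 x := fun b hb => hn (c1 ⟨b, hb⟩ a a' ha ha' hne)
    have hcl2 : ∀ x ∈ S, TypeK R v5 v2 v3 v4 x ∨ TypeK R v1 v3 v4 v5 x ∨
        TypeA R v1 v2 v3 v4 v5 x := by
      intro x hx
      rcases hcl x hx with h6 | h6 | h6 | h6 | h6 | h6
      · exact Or.inl h6
      · exact Or.inr (Or.inl h6)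
      · exact absurd h6 (s3 x hx)
      · exact absurd h6 (s5 x hx)
      · exact Or.inr (Or.inr h6)
      · exact absurd h6 (hnb x)
    -- K1 complete to K2
    have f12' : ∀ x y, TypeK R v5 v2 v3 v4 x → TypeK R v1 v3 v4 v5 y → R x y := by
      intro x y hx hy
      by_contra h6
      refine hR.Q a x a' y (f11 a x ha hx) (sy _ _ (f11 a' x ha' hx)) (f12 a' y ha' hy)
        (sy _ _ (f12 a y ha hy)) hn hne h6 ?_
      rintro rfl
      exact hx.2.2.1 hy.2.1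
    -- no K1, K2 in S
    have hall : ∀ k ∈ S, ∀ z ∈ S, (TypeK R v5 v2 v3 v4 k ∨ TypeK R v1 v3 v4 v5 k) → z ≠ k →
        R k z := by
      intro k _ z hz hk hzk
      rcases hk with hk | hk <;> rcases hcl2 z hz with h6 | h6 | h6
      · exact k1 k z hk h6 (Ne.symm hzk)
      · exact f12' k z hk h6
      · exact sy _ _ (f11 z k h6 hk)
      · exact sy _ _ (f12' z k h6 hk)
      · exact k2 k z hk h6 (Ne.symm hzk)
      · exact sy _ _ (f12 z k h6 hk)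
    have hnoK : ∀ k ∈ S, ¬ (TypeK R v5 v2 v3 v4 k ∨ TypeK R v1 v3 v4 v5 k) := by
      intro k hkS hk
      obtain ⟨y, hy, hky⟩ := hS.one k hkS
      obtain ⟨z, hz, hyz, hzk, hnzk⟩ := hS.two y hy k hkS (sy _ _ hky)
      exact hnzk (sy _ _ (hall k hkS z hz hk hzk))
    have hA1 : ∀ x ∈ S, TypeA R v1 v2 v3 v4 v5 x := by
      intro x hx
      have h6 := hnoK x hx
      rcases hcl2 x hx with h7 | h7 | h7
      · exact absurd (Or.inl h7) h6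
      · exact absurd (Or.inr h7) h6
      · exact h7
    obtain ⟨x, hx⟩ := hS.ne
    obtain ⟨y, hy, hxy⟩ := hS.one x hx
    obtain ⟨z, hz, hxz, hzy, hnzy⟩ := hS.two x hx y hy hxy
    obtain ⟨w, hw, hyw, hwx, hnwx⟩ := hS.two y hy x hx (sy _ _ hxy)
    by_cases hzw : R z w
    · exact hR.Q x z w y hxz hzw (sy _ _ hyw) (sy _ _ hxy) (ns hnwx) (Ne.symm hwx) hnzy hzy
    · exact hR.P z x y w v4 (sy _ _ hxz) hxy hyw hnzy hzw (ns hnwx)
        (ns (hA1 z hz).2.2.2.1) (ns (hA1 x hx).2.2.2.1) (ns (hA1 y hy).2.2.2.1)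
        (ns (hA1 w hw).2.2.2.1)

end Pool.Q185.CK
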