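import Pool.Agent.Q185.CK.Hex

/-!
# `{P₄ + P₁, C₄}`-free graphs: translation to graphs
-/

namespace Pool.Q185.CK

open SimpleGraph

variable {V : Type*}

/-- `H` is an induced subgraph of `G` (up to isomorphism). -/
def HasInduced {W : Type*} (H : SimpleGraph W) (G : SimpleGraph V) : Prop :=
  Nonempty (H ↪g G)

/-- `P₄ + P₁`: the disjoint union of a path on four vertices and an isolated vertex. -/
def P4P1 : SimpleGraph (Fin 4 ⊕ Fin 1) := pathGraph 4 ⊕g (⊥ : SimpleGraph (Fin 1))

/-- A graph is chordal if it has no induced cycle of length at least four. -/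
def IsChordal (G : SimpleGraph V) : Prop := ∀ n, 4 ≤ n → ¬ HasInduced (cycleGraph n) G

theorem hasInduced_of {W : Type*} {H : SimpleGraph W} {G : SimpleGraph V} (f : W → V)
    (hinj : Function.Injective f) (hadj : ∀ x y, G.Adj (f x) (f y) ↔ H.Adj x y) :
    HasInduced H G :=
  ⟨⟨⟨f, hinj⟩, by intro x y; exact hadj x y⟩⟩

theorem freeRel_of (G : SimpleGraph V) (h1 : ¬ HasInduced P4P1 G)
    (h2 : ¬ HasInduced (cycleGraph 4) G) : FreeRel G.Adj where
  sym x y h := h.symm
  irr x := G.irrefl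
  P := by
    intro a b c d e hab hbc hcd hac had hbd hea heb hec hed
    apply h1
    have dac : a ≠ c := by rintro rfl; exact had hcd
    have dad : a ≠ d := by rintro rfl; exact hac hcd.symm
    have dbd : b ≠ d := by rintro rfl; exact had hab
    have dea : e ≠ a := by rintro rfl; exact heb hab
    have deb : e ≠ b := by rintro rfl; exact hea hab.symm
    have dec : e ≠ c := by rintro rfl; exact heb hbc.symm
    have ded : e ≠ d := by rintro rfl; exact hec hcd.symm
    have dab := hab.ne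
    have dbc := hbc.ne
    have dcd := hcd.ne
    have hba := hab.symm
    have hcb := hbc.symm
    have hdc := hcd.symm
    have hca : ¬ G.Adj c a := fun h => hac h.symm
    have hda : ¬ G.Adj d a := fun h => had h.symm
    have hdb : ¬ G.Adj d b := fun h => hbd h.symm
    have hae : ¬ G.Adj a e := fun h => hea h.symm
    have hbe : ¬ G.Adj b e := fun h => heb h.symm
    have hce : ¬ G.Adj c e := fun h => hec h.symm
    have hde : ¬ G.Adj d e := fun h => hed h.symm
    refine hasInduced_of (Sum.elim ![a, b, c, d] ![e]) ?_ ?_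
    · intro x y hxy
      rcases x with x | x <;> rcases y with y | y
      · fin_cases x <;> fin_cases y <;> simp_all
      · fin_cases x <;> fin_cases y <;> simp_all
      · fin_cases x <;> fin_cases y <;> simp_all
      · exact congrArg Sum.inr (Subsingleton.elim _ _)
    · intro x y
      rcases x with x | x <;> rcases y with y | y
      · simp only [P4P1, sum_adj_inl, Sum.elim_inl]
        fin_cases x <;> fin_cases y <;> simp_all [pathGraph_adj]
      · simp only [P4P1, Sum.elim_inl, Sum.elim_inr]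
        fin_cases x <;> fin_cases y <;> simp_all
      · simp only [P4P1, Sum.elim_inl, Sum.elim_inr]
        fin_cases x <;> fin_cases y <;> simp_all
      · simp only [P4P1, sum_adj_inr, Sum.elim_inr]
        fin_cases x; fin_cases y; simp_all
  Q := by
    intro a b c d hab hbc hcd hda hac dac hbd dbd
    apply h2
    have dab := hab.ne
    have dbc := hbc.ne
    have dcd := hcd.ne
    have dda := hda.ne
    have hba := hab.symm
    have hcb := hbc.symm
    have hdc := hcd.symm
    have had := hda.symm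
    have hca : ¬ G.Adj c a := fun h => hac h.symm
    have hdb : ¬ G.Adj d b := fun h => hbd h.symm
    refine hasInduced_of ![a, b, c, d] ?_ ?_
    · intro x y hxy
      fin_cases x <;> fin_cases y <;> first
        | rfl
        | exact absurd hxy dab | exact absurd hxy dab.symm | exact absurd hxy dbc
        | exact absurd hxy dbc.symm | exact absurd hxy dcd | exact absurd hxy dcd.symm
        | exact absurd hxy dda | exact absurd hxy dda.symm | exact absurd hxy dac
        | exact absurd hxy dac.symm | exact absurd hxy dbd | exact absurd hxy dbd.symm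
    · intro x y
      rw [cycleGraph_adj]
      fin_cases x <;> fin_cases y <;> first
        | exact iff_of_true hab (by decide) | exact iff_of_true hbc (by decide)
        | exact iff_of_true hcd (by decide) | exact iff_of_true hda (by decide)
        | exact iff_of_true hba (by decide) | exact iff_of_true hcb (by decide)
        | exact iff_of_true hdc (by decide) | exact iff_of_true had (by decide)
        | exact iff_of_false hac (by decide) | exact iff_of_false hbd (by decide)
        | exact iff_of_false hca (by decide) | exact iff_of_false hdb (by decide)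
        | exact iff_of_false G.irrefl (by decide)

/-- Adjacency in the cycle graph in terms of values. -/
theorem cyc_adj_val {n : ℕ} (hn : 4 ≤ n) (u v : Fin n) :
    (cycleGraph n).Adj u v ↔ v.val = u.val + 1 ∨ u.val = v.val + 1 ∨
      (u.val = 0 ∧ v.val + 1 = n) ∨ (v.val = 0 ∧ u.val + 1 = n) := by
  rw [cycleGraph_adj']
  have h1 : (u - v).val = if v.val ≤ u.val then u.val - v.val else n + u.val - v.val := by
    split_ifs with h
    · exact (Fin.coe_sub_iff_le.mpr h)
    · exact (Fin.coe_sub_iff_lt.mpr (Fin.lt_def.mpr (by omega)))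
  have h2 : (v - u).val = if u.val ≤ v.val then v.val - u.val else n + v.val - u.val := by
    split_ifs with h
    · exact (Fin.coe_sub_iff_le.mpr h)
    · exact (Fin.coe_sub_iff_lt.mpr (Fin.lt_def.mpr (by omega)))
  have hu := u.isLt
  have hv := v.isLt
  rw [h1, h2]
  split_ifs <;> omega

/-- The vertex set of an induced cycle of length at least four. -/
theorem cyc_of_embedding (G : SimpleGraph V) {n : ℕ} (hn : 4 ≤ n) (f : Fin n → V)
    (hf : ∀ i j, G.Adj (f i) (f j) ↔ (cycleGraph n).Adj i j) (hinj : Function.Injective f) :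
    Cyc G.Adj (Set.range f) := by
  have nxt : ∀ i : Fin n, ∃ j k : Fin n, (cycleGraph n).Adj i j ∧ (cycleGraph n).Adj i k ∧ j ≠ k ∧
      ¬ (cycleGraph n).Adj j k ∧ ∀ l, (cycleGraph n).Adj i l → l = j ∨ l = k := by
    intro i
    have hi := i.isLt
    obtain ⟨j, hj⟩ : ∃ j : Fin n, (j.val = i.val + 1 ∧ i.val + 1 < n) ∨
        (j.val = 0 ∧ i.val + 1 = n) := by
      by_cases h : i.val + 1 < n
      · exact ⟨⟨i.val + 1, h⟩, Or.inl ⟨rfl, h⟩⟩
      · exact ⟨⟨0, by omega⟩, Or.inr ⟨rfl, by omega⟩⟩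
    obtain ⟨k, hk⟩ : ∃ k : Fin n, k.val + 1 = i.val ∨ (i.val = 0 ∧ k.val + 1 = n) := by
      by_cases h : 0 < i.val
      · exact ⟨⟨i.val - 1, by omega⟩, Or.inl (by simp only; omega)⟩
      · exact ⟨⟨n - 1, by omega⟩, Or.inr (by simp only; omega)⟩
    refine ⟨j, k, ?_, ?_, ?_, ?_, ?_⟩
    · rw [cyc_adj_val hn]
      omega
    · rw [cyc_adj_val hn]
      omega
    · intro h
      rw [h] at hj
      omega
    · rw [cyc_adj_val hn]
      omega
    · intro l hl
      have hl2 := l.isLt
      have hk2 := k.isLt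
      rw [cyc_adj_val hn] at hl
      rw [Fin.ext_iff, Fin.ext_iff]
      omega
  refine ⟨⟨f ⟨0, by omega⟩, ⟨_, rfl⟩⟩, ?_, ?_⟩
  · rintro x ⟨i, rfl⟩
    obtain ⟨j, k, h1, _⟩ := nxt i
    exact ⟨f j, ⟨j, rfl⟩, (hf i j).mpr h1⟩
  · rintro x ⟨i, rfl⟩ y ⟨l, rfl⟩ hxy
    obtain ⟨j, k, h1, h2, h3, h4, h5⟩ := nxt i
    rcases h5 l ((hf i l).mp hxy) with rfl | rfl
    · exact ⟨f k, ⟨k, rfl⟩, (hf i k).mpr h2, fun h => h3 (hinj h).symm,
        fun h => h4 ((hf k l).mp h).symm⟩
    · exact ⟨f j, ⟨j, rfl⟩, (hf i j).mpr h1, fun h => h3 (hinj h),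
        fun h => h4 ((hf j l).mp h)⟩

/-- A non-chordal `{P₄ + P₁, C₄}`-free graph has an induced cycle of length five or six. -/
theorem hole_of_not_chordal (G : SimpleGraph V) (hR : FreeRel G.Adj) {n : ℕ} (hn : 4 ≤ n)
    (f : Fin n → V) (hf : ∀ i j, G.Adj (f i) (f j) ↔ (cycleGraph n).Adj i j)
    (hinj : Function.Injective f) :
    (∃ v1 v2 v3 v4 v5, Pent G.Adj v1 v2 v3 v4 v5) ∨
      ∃ c0 c1 c2 c3 c4 c5, Hex G.Adj c0 c1 c2 c3 c4 c5 := by
  have adj : ∀ (i j : ℕ) (hi : i < n) (hj : j < n), (j = i + 1 ∨ i = j + 1 ∨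
      (i = 0 ∧ j + 1 = n) ∨ (j = 0 ∧ i + 1 = n)) → G.Adj (f ⟨i, hi⟩) (f ⟨j, hj⟩) := by
    intro i j hi hj h
    rw [hf, cyc_adj_val hn]
    exact h
  have nadj : ∀ (i j : ℕ) (hi : i < n) (hj : j < n), ¬ (j = i + 1 ∨ i = j + 1 ∨
      (i = 0 ∧ j + 1 = n) ∨ (j = 0 ∧ i + 1 = n)) → ¬ G.Adj (f ⟨i, hi⟩) (f ⟨j, hj⟩) := by
    intro i j hi hj h
    rw [hf, cyc_adj_val hn]
    exact h
  have dist : ∀ (i j : ℕ) (hi : i < n) (hj : j < n), i ≠ j → f ⟨i, hi⟩ ≠ f ⟨j, hj⟩ := by
    intro i j hi hj h h2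
    have := hinj h2
    rw [Fin.mk.injEq] at this
    exact h this
  rcases (show n = 4 ∨ n = 5 ∨ n = 6 ∨ 7 ≤ n by omega) with h | h | h | h
  · exfalso
    exact hR.Q (f ⟨0, by omega⟩) (f ⟨1, by omega⟩) (f ⟨2, by omega⟩) (f ⟨3, by omega⟩)
      (adj _ _ _ _ (by omega)) (adj _ _ _ _ (by omega)) (adj _ _ _ _ (by omega))
      (adj _ _ _ _ (by omega)) (nadj _ _ _ _ (by omega)) (dist _ _ _ _ (by omega))
      (nadj _ _ _ _ (by omega)) (dist _ _ _ _ (by omega))
  · left
    exact ⟨f ⟨0, by omega⟩, f ⟨1, by omega⟩, f ⟨2, by omega⟩, f ⟨3, by omega⟩, f ⟨4, by omega⟩,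
      Pent.of hR (adj _ _ _ _ (by omega)) (adj _ _ _ _ (by omega)) (adj _ _ _ _ (by omega))
      (adj _ _ _ _ (by omega)) (adj _ _ _ _ (by omega)) (nadj _ _ _ _ (by omega))
      (nadj _ _ _ _ (by omega)) (nadj _ _ _ _ (by omega)) (nadj _ _ _ _ (by omega))
      (nadj _ _ _ _ (by omega))⟩
  · right
    exact ⟨f ⟨0, by omega⟩, f ⟨1, by omega⟩, f ⟨2, by omega⟩, f ⟨3, by omega⟩, f ⟨4, by omega⟩,
      f ⟨5, by omega⟩,
      ⟨adj _ _ _ _ (by omega), adj _ _ _ _ (by omega), adj _ _ _ _ (by omega),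
      adj _ _ _ _ (by omega), adj _ _ _ _ (by omega), adj _ _ _ _ (by omega),
      nadj _ _ _ _ (by omega), nadj _ _ _ _ (by omega), nadj _ _ _ _ (by omega),
      nadj _ _ _ _ (by omega), nadj _ _ _ _ (by omega), nadj _ _ _ _ (by omega),
      nadj _ _ _ _ (by omega), nadj _ _ _ _ (by omega), nadj _ _ _ _ (by omega),
      dist _ _ _ _ (by omega), dist _ _ _ _ (by omega), dist _ _ _ _ (by omega),
      dist _ _ _ _ (by omega), dist _ _ _ _ (by omega), dist _ _ _ _ (by omega)⟩⟩
  · exfalso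
    exact hR.P (f ⟨0, by omega⟩) (f ⟨1, by omega⟩) (f ⟨2, by omega⟩) (f ⟨3, by omega⟩)
      (f ⟨5, by omega⟩)
      (adj _ _ _ _ (by omega)) (adj _ _ _ _ (by omega)) (adj _ _ _ _ (by omega))
      (nadj _ _ _ _ (by omega)) (nadj _ _ _ _ (by omega)) (nadj _ _ _ _ (by omega))
      (nadj _ _ _ _ (by omega)) (nadj _ _ _ _ (by omega)) (nadj _ _ _ _ (by omega))
      (nadj _ _ _ _ (by omega))

/-- Main theorem. -/
theorem exists_clique (G : SimpleGraph V) (h1 : ¬ HasInduced P4P1 G)
    (h2 : ¬ HasInduced (cycleGraph 4) G) :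
    ∃ K : Set V, G.IsClique K ∧ IsChordal (G.induce Kᶜ) := by
  have hR := freeRel_of G h1 h2
  by_cases hch : IsChordal G
  · refine ⟨∅, by simp, ?_⟩
    rintro n hn ⟨f⟩
    exact hch n hn ⟨f.trans (Embedding.induce _)⟩
  · unfold IsChordal at hch
    push Not at hch
    obtain ⟨n, hn, ⟨f⟩⟩ := hch
    have hh := hole_of_not_chordal G hR hn f (fun i j => f.map_adj_iff) f.injective
    obtain ⟨K, hK, hK2⟩ := main_rel hR hh
    refine ⟨K, fun x hx y hy hne => hK x hx y hy hne, ?_⟩
    rintro m hm ⟨g⟩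
    refine hK2 (Set.range (fun i => (g i : V))) ?_ (cyc_of_embedding G hm _ ?_ ?_)
    · rintro x ⟨i, rfl⟩
      exact (g i).2
    · intro i j
      exact g.map_adj_iff
    · intro i j hij
      exact g.injective (Subtype.ext hij)

end Pool.Q185.CK
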