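import Pool.Agent.Q185.CK.Core

/-!
# `{P₄ + P₁, C₄}`-free graphs: the case of an induced cycle of length six, and the conclusion
-/

namespace Pool.Q185.CK

variable {V : Type*} {R : V → V → Prop}

/-- An induced cycle of length six. -/
structure Hex (R : V → V → Prop) (c0 c1 c2 c3 c4 c5 : V) : Prop where
  a01 : R c0 c1
  a12 : R c1 c2
  a23 : R c2 c3
  a34 : R c3 c4
  a45 : R c4 c5
  a50 : R c5 c0
  n02 : ¬ R c0 c2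
  n03 : ¬ R c0 c3
  n04 : ¬ R c0 c4
  n13 : ¬ R c1 c3
  n14 : ¬ R c1 c4
  n15 : ¬ R c1 c5
  n24 : ¬ R c2 c4
  n25 : ¬ R c2 c5
  n35 : ¬ R c3 c5
  d02 : c0 ≠ c2
  d13 : c1 ≠ c3
  d24 : c2 ≠ c4
  d35 : c3 ≠ c5
  d04 : c0 ≠ c4
  d15 : c1 ≠ c5

/-- `x` is a clone of a vertex of the cycle: adjacent to `a`, `b`, not adjacent to `c`, `d`, `e`. -/
def TypeH (R : V → V → Prop) (a b c d e x : V) : Prop :=
  R x a ∧ R x b ∧ ¬ R x c ∧ ¬ R x d ∧ ¬ R x e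

theorem prop6 (p0 p1 p2 p3 p4 p5 : Prop)
    (q0 : p5 → p1 → p0) (q1 : p0 → p2 → p1) (q2 : p1 → p3 → p2) (q3 : p2 → p4 → p3)
    (q4 : p3 → p5 → p4) (q5 : p4 → p0 → p5)
    (w0 : ¬ p0 → ¬ p1 → ¬ p2 → ¬ p3 → False) (w1 : ¬ p1 → ¬ p2 → ¬ p3 → ¬ p4 → False)
    (w2 : ¬ p2 → ¬ p3 → ¬ p4 → ¬ p5 → False) (w3 : ¬ p3 → ¬ p4 → ¬ p5 → ¬ p0 → False)
    (w4 : ¬ p4 → ¬ p5 → ¬ p0 → ¬ p1 → False) (w5 : ¬ p5 → ¬ p0 → ¬ p1 → ¬ p2 → False)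
    (m0 : p0 → p3 → ¬ p4 → ¬ p5 → False) (m1 : p1 → p4 → ¬ p5 → ¬ p0 → False)
    (m2 : p2 → p5 → ¬ p0 → ¬ p1 → False) (m3 : p3 → p0 → ¬ p1 → ¬ p2 → False)
    (m4 : p4 → p1 → ¬ p2 → ¬ p3 → False) (m5 : p5 → p2 → ¬ p3 → ¬ p4 → False) :
    (p1 ∧ p5) ∨ (p0 ∧ p2 ∧ ¬ p3 ∧ ¬ p4 ∧ ¬ p5) ∨ (p1 ∧ p3 ∧ ¬ p4 ∧ ¬ p5 ∧ ¬ p0) ∨
    (p2 ∧ p4 ∧ ¬ p5 ∧ ¬ p0 ∧ ¬ p1) ∨ (p3 ∧ p5 ∧ ¬ p0 ∧ ¬ p1 ∧ ¬ p2) ∨
    (p4 ∧ p0 ∧ ¬ p1 ∧ ¬ p2 ∧ ¬ p3) := by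
  by_cases r0 : p0 <;> by_cases r1 : p1 <;> by_cases r2 : p2 <;> by_cases r3 : p3 <;>
    by_cases r4 : p4 <;> by_cases r5 : p5 <;>
    simp only [r0, r1, r2, r3, r4, r5, not_true_eq_false, not_false_eq_true, forall_true_left,
      imp_false, and_true, and_false, or_false, or_true,
      IsEmpty.forall_iff] at q0 q1 q2 q3 q4 q5 w0 w1 w2 w3 w4 w5 m0 m1 m2 m3 m4 m5 ⊢

theorem classifyH (hR : FreeRel R) (hno : ∀ v1 v2 v3 v4 v5, ¬ Pent R v1 v2 v3 v4 v5)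
    {c0 c1 c2 c3 c4 c5 : V} (h : Hex R c0 c1 c2 c3 c4 c5) (x : V) :
    (R x c1 ∧ R x c5) ∨ TypeH R c0 c2 c3 c4 c5 x ∨ TypeH R c1 c3 c4 c5 c0 x ∨
    TypeH R c2 c4 c5 c0 c1 x ∨ TypeH R c3 c5 c0 c1 c2 x ∨ TypeH R c4 c0 c1 c2 c3 x := by
  obtain ⟨a01, a12, a23, a34, a45, a50, n02, n03, n04, n13, n14, n15, n24, n25, n35, d02, d13, d24,
    d35, d04, d15⟩ := h
  have sy := hR.sym
  have ns : ∀ {x y}, ¬ R x y → ¬ R y x := fun h1 h2 => h1 (sy _ _ h2)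
  have a10 := sy _ _ a01
  have a21 := sy _ _ a12
  have a32 := sy _ _ a23
  have a43 := sy _ _ a34
  have a54 := sy _ _ a45
  have a05 := sy _ _ a50
  by_cases e0 : x = c0
  · subst e0; exact Or.inl ⟨a01, a05⟩
  by_cases e1 : x = c1
  · subst e1; exact Or.inr (Or.inl ⟨a10, a12, n13, n14, n15⟩)
  by_cases e2 : x = c2
  · subst e2; exact Or.inr (Or.inr (Or.inl ⟨a21, a23, n24, n25, ns n02⟩))
  by_cases e3 : x = c3
  · subst e3; exact Or.inr (Or.inr (Or.inr (Or.inl ⟨a32, a34, n35, ns n03, ns n13⟩)))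
  by_cases e4 : x = c4
  · subst e4; exact Or.inr (Or.inr (Or.inr (Or.inr (Or.inl ⟨a43, a45, ns n04, ns n14, ns n24⟩))))
  by_cases e5 : x = c5
  · subst e5; exact Or.inr (Or.inr (Or.inr (Or.inr (Or.inr ⟨a54, a50, ns n15, ns n25, ns n35⟩))))
  refine prop6 _ _ _ _ _ _ ?_ ?_ ?_ ?_ ?_ ?_ ?_ ?_ ?_ ?_ ?_ ?_ ?_ ?_ ?_ ?_ ?_ ?_
  · intro h1 h2
    by_contra h3
    exact hR.Q x c5 c0 c1 h1 a50 a01 (sy _ _ h2) h3 e0 (ns n15) d15.symm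
  · intro h1 h2
    by_contra h3
    exact hR.Q x c0 c1 c2 h1 a01 a12 (sy _ _ h2) h3 e1 n02 d02
  · intro h1 h2
    by_contra h3
    exact hR.Q x c1 c2 c3 h1 a12 a23 (sy _ _ h2) h3 e2 n13 d13
  · intro h1 h2
    by_contra h3
    exact hR.Q x c2 c3 c4 h1 a23 a34 (sy _ _ h2) h3 e3 n24 d24
  · intro h1 h2
    by_contra h3
    exact hR.Q x c3 c4 c5 h1 a34 a45 (sy _ _ h2) h3 e4 n35 d35
  · intro h1 h2
    by_contra h3
    exact hR.Q x c4 c5 c0 h1 a45 a50 (sy _ _ h2) h3 e5 (ns n04) d04.symm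
  · exact fun h1 h2 h3 h4 => hR.P c0 c1 c2 c3 x a01 a12 a23 n02 n03 n13 h1 h2 h3 h4
  · exact fun h1 h2 h3 h4 => hR.P c1 c2 c3 c4 x a12 a23 a34 n13 n14 n24 h1 h2 h3 h4
  · exact fun h1 h2 h3 h4 => hR.P c2 c3 c4 c5 x a23 a34 a45 n24 n25 n35 h1 h2 h3 h4
  · exact fun h1 h2 h3 h4 => hR.P c3 c4 c5 c0 x a34 a45 a50 n35 (ns n03) (ns n04) h1 h2 h3 h4
  · exact fun h1 h2 h3 h4 => hR.P c4 c5 c0 c1 x a45 a50 a01 (ns n04) (ns n14) (ns n15) h1 h2 h3 h4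
  · exact fun h1 h2 h3 h4 => hR.P c5 c0 c1 c2 x a50 a01 a12 (ns n15) (ns n25) n02 h1 h2 h3 h4
  · -- x c3 c4 c5 c0
    intro h1 h2 h3 h4
    exact hno x c3 c4 c5 c0 (Pent.of hR h2 a34 a45 a50 (sy _ _ h1) h3 n35 (ns n04) (ns h4) n03)
  · intro h1 h2 h3 h4
    exact hno x c4 c5 c0 c1 (Pent.of hR h2 a45 a50 a01 (sy _ _ h1) h3 (ns n04) (ns n15) (ns h4) n14)
  · intro h1 h2 h3 h4
    exact hno x c5 c0 c1 c2 (Pent.of hR h2 a50 a01 a12 (sy _ _ h1) h3 (ns n15) n02 (ns h4) n25)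
  · intro h1 h2 h3 h4
    exact hno x c0 c1 c2 c3 (Pent.of hR h2 a01 a12 a23 (sy _ _ h1) h3 n02 n13 (ns h4) (ns n03))
  · intro h1 h2 h3 h4
    exact hno x c1 c2 c3 c4 (Pent.of hR h2 a12 a23 a34 (sy _ _ h1) h3 n13 n24 (ns h4) (ns n14))
  · intro h1 h2 h3 h4
    exact hno x c2 c3 c4 c5 (Pent.of hR h2 a23 a34 a45 (sy _ _ h1) h3 n24 n35 (ns h4) (ns n25))

/-- The case of an induced cycle of length six. -/
theorem hex_case (hR : FreeRel R) (hno : ∀ v1 v2 v3 v4 v5, ¬ Pent R v1 v2 v3 v4 v5)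
    {c0 c1 c2 c3 c4 c5 : V} (h : Hex R c0 c1 c2 c3 c4 c5)
    {S : Set V} (hS : Cyc R S) (hSK : ∀ x ∈ S, ¬ (R x c1 ∧ R x c5)) : False := by
  have hcl : ∀ x ∈ S, TypeH R c0 c2 c3 c4 c5 x ∨ TypeH R c1 c3 c4 c5 c0 x ∨
    TypeH R c2 c4 c5 c0 c1 x ∨ TypeH R c3 c5 c0 c1 c2 x ∨ TypeH R c4 c0 c1 c2 c3 x := by
    intro x hx
    rcases classifyH hR hno h x with h1 | h1
    · exact absurd h1 (hSK x hx)
    · exact h1
  obtain ⟨a01, a12, a23, a34, a45, a50, n02, n03, n04, n13, n14, n15, n24, n25, n35, d02, d13, d24,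
    d35, d04, d15⟩ := h
  have sy := hR.sym
  have ns : ∀ {x y}, ¬ R x y → ¬ R y x := fun h1 h2 => h1 (sy _ _ h2)
  have a10 := sy _ _ a01
  have a21 := sy _ _ a12
  have a32 := sy _ _ a23
  have a43 := sy _ _ a34
  have a54 := sy _ _ a45
  have a05 := sy _ _ a50
  have kk : ∀ a b c d e x y, ¬ R a b → a ≠ b → TypeH R a b c d e x → TypeH R a b c d e y →
      x ≠ y → R x y := by
    intro a b c d e x y hab dab hx hy hne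
    by_contra hn
    exact hR.Q a x b y (sy _ _ hx.1) hx.2.1 (sy _ _ hy.2.1) hy.1 hab dab hn hne
  have z13 : ∀ x y, TypeH R c0 c2 c3 c4 c5 x → TypeH R c2 c4 c5 c0 c1 y → ¬ R x y := by
    intro x y hx hy hxy
    exact hno x y c4 c5 c0 (Pent.of hR hxy hy.2.1 a45 a50 (sy _ _ hx.1) hx.2.2.2.1 hy.2.2.1
      (ns n04) (ns hx.2.2.2.2) (ns hy.2.2.2.1))
  have z24 : ∀ x y, TypeH R c1 c3 c4 c5 c0 x → TypeH R c3 c5 c0 c1 c2 y → ¬ R x y := by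
    intro x y hx hy hxy
    exact hno x y c5 c0 c1 (Pent.of hR hxy hy.2.1 a50 a01 (sy _ _ hx.1) hx.2.2.2.1 hy.2.2.1
      (ns n15) (ns hx.2.2.2.2) (ns hy.2.2.2.1))
  have z35 : ∀ x y, TypeH R c2 c4 c5 c0 c1 x → TypeH R c4 c0 c1 c2 c3 y → ¬ R x y := by
    intro x y hx hy hxy
    exact hno x y c0 c1 c2 (Pent.of hR hxy hy.2.1 a01 a12 (sy _ _ hx.1) hx.2.2.2.1 hy.2.2.1
      n02 (ns hx.2.2.2.2) (ns hy.2.2.2.1))
  have z51 : ∀ x y, TypeH R c4 c0 c1 c2 c3 x → TypeH R c0 c2 c3 c4 c5 y → ¬ R x y := by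
    intro x y hx hy hxy
    exact hno x y c2 c3 c4 (Pent.of hR hxy hy.2.1 a23 a34 (sy _ _ hx.1) hx.2.2.2.1 hy.2.2.1
      n24 (ns hx.2.2.2.2) (ns hy.2.2.2.1))
  have z14 : ∀ x y, TypeH R c0 c2 c3 c4 c5 x → TypeH R c3 c5 c0 c1 c2 y → ¬ R x y := by
    intro x y hx hy hxy
    refine hR.Q x y c3 c2 hxy hy.1 a32 (sy _ _ hx.2.1) hx.2.2.1 ?_ hy.2.2.2.2 ?_
    · rintro rfl
      exact n03 (sy _ _ hx.1)
    · rintro rfl
      exact n25 hy.2.1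
  have z25 : ∀ x y, TypeH R c1 c3 c4 c5 c0 x → TypeH R c4 c0 c1 c2 c3 y → ¬ R x y := by
    intro x y hx hy hxy
    refine hR.Q x y c4 c3 hxy hy.1 a43 (sy _ _ hx.2.1) hx.2.2.1 ?_ hy.2.2.2.2 ?_
    · rintro rfl
      exact n14 (sy _ _ hx.1)
    · rintro rfl
      exact n03 (sy _ _ hy.2.1)
  have s1 : ∀ x ∈ S, ¬ TypeH R c0 c2 c3 c4 c5 x := by
    refine hS.discard hR (fun x => TypeH R c0 c2 c3 c4 c5 x)
      (fun x => TypeH R c1 c3 c4 c5 c0 x) ?_ ?_ ?_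
    · exact fun x _ y _ hx hy hne => kk _ _ _ _ _ x y n02 d02 hx hy hne
    · intro x _ hx y hy hxy
      rcases hcl y hy with h6 | h6 | h6 | h6 | h6
      · exact Or.inl h6
      · exact Or.inr h6
      · exact absurd hxy (z13 x y hx h6)
      · exact absurd hxy (z14 x y hx h6)
      · exact absurd (sy _ _ hxy) (z51 y x h6 hx)
    · exact fun z _ w _ hz hw hne _ _ => kk _ _ _ _ _ z w n13 d13 hz hw hne
  have s2 : ∀ x ∈ S, ¬ TypeH R c1 c3 c4 c5 c0 x := by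
    refine hS.discard hR (fun x => TypeH R c1 c3 c4 c5 c0 x)
      (fun x => TypeH R c2 c4 c5 c0 c1 x) ?_ ?_ ?_
    · exact fun x _ y _ hx hy hne => kk _ _ _ _ _ x y n13 d13 hx hy hne
    · intro x _ hx y hy hxy
      rcases hcl y hy with h6 | h6 | h6 | h6 | h6
      · exact absurd h6 (s1 y hy)
      · exact Or.inl h6
      · exact Or.inr h6
      · exact absurd hxy (z24 x y hx h6)
      · exact absurd hxy (z25 x y hx h6)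
    · exact fun z _ w _ hz hw hne _ _ => kk _ _ _ _ _ z w n24 d24 hz hw hne
  have s3 : ∀ x ∈ S, ¬ TypeH R c2 c4 c5 c0 c1 x := by
    refine hS.discard hR (fun x => TypeH R c2 c4 c5 c0 c1 x)
      (fun x => TypeH R c3 c5 c0 c1 c2 x) ?_ ?_ ?_
    · exact fun x _ y _ hx hy hne => kk _ _ _ _ _ x y n24 d24 hx hy hne
    · intro x _ hx y hy hxy
      rcases hcl y hy with h6 | h6 | h6 | h6 | h6
      · exact absurd h6 (s1 y hy)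
      · exact absurd h6 (s2 y hy)
      · exact Or.inl h6
      · exact Or.inr h6
      · exact absurd hxy (z35 x y hx h6)
    · exact fun z _ w _ hz hw hne _ _ => kk _ _ _ _ _ z w n35 d35 hz hw hne
  have s4 : ∀ x ∈ S, ¬ TypeH R c3 c5 c0 c1 c2 x := by
    refine hS.discard hR (fun x => TypeH R c3 c5 c0 c1 c2 x)
      (fun x => TypeH R c4 c0 c1 c2 c3 x) ?_ ?_ ?_
    · exact fun x _ y _ hx hy hne => kk _ _ _ _ _ x y n35 d35 hx hy hne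
    · intro x _ hx y hy hxy
      rcases hcl y hy with h6 | h6 | h6 | h6 | h6
      · exact absurd h6 (s1 y hy)
      · exact absurd h6 (s2 y hy)
      · exact absurd h6 (s3 y hy)
      · exact Or.inl h6
      · exact Or.inr h6
    · exact fun z _ w _ hz hw hne _ _ => kk _ _ _ _ _ z w (ns n04) d04.symm hz hw hne
  have s5 : ∀ x ∈ S, TypeH R c4 c0 c1 c2 c3 x := by
    intro x hx
    rcases hcl x hx with h6 | h6 | h6 | h6 | h6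
    · exact absurd h6 (s1 x hx)
    · exact absurd h6 (s2 x hx)
    · exact absurd h6 (s3 x hx)
    · exact absurd h6 (s4 x hx)
    · exact h6
  exact hS.not_clique (fun x hx y hy hne => kk _ _ _ _ _ x y (ns n04) d04.symm (s5 x hx) (s5 y hy)
    hne)

/-- Good labelling of a pentagon. -/
theorem exists_good (hR : FreeRel R) {v1 v2 v3 v4 v5 : V} (h : Pent R v1 v2 v3 v4 v5) :
    ∃ w1 w2 w3 w4 w5, Pent R w1 w2 w3 w4 w5 ∧ (∀ x, ¬ TypeA R w3 w4 w5 w1 w2 x) ∧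
      (∀ x, ¬ TypeA R w4 w5 w1 w2 w3 x) ∧ (∀ x, ¬ TypeA R w5 w1 w2 w3 w4 x) ∧
      ((∃ x, TypeA R w2 w3 w4 w5 w1 x) → ∃ x, TypeA R w1 w2 w3 w4 w5 x) := by
  have r1 := h.rot
  have r2 := r1.rot
  have r3 := r2.rot
  have r4 := r3.rot
  have g0 := not_A1_A3 hR h
  have g1 := not_A1_A3 hR r1
  have g2 := not_A1_A3 hR r2
  have g3 := not_A1_A3 hR r3
  have g4 := not_A1_A3 hR r4
  by_cases E1 : ∃ x, TypeA R v1 v2 v3 v4 v5 x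
  · by_cases E5 : ∃ x, TypeA R v5 v1 v2 v3 v4 x
    · -- then E5 and E1 occur; rotate to v5
      obtain ⟨x1, hx1⟩ := E1
      obtain ⟨x5, hx5⟩ := E5
      refine ⟨v5, v1, v2, v3, v4, r4, ?_, ?_, ?_, fun _ => ⟨x5, hx5⟩⟩
      · exact fun x hx => g4 x5 x hx5 hx
      · exact fun x hx => g0 x1 x hx1 hx
      · exact fun x hx => g3 x x1 hx hx1
    · obtain ⟨x1, hx1⟩ := E1
      refine ⟨v1, v2, v3, v4, v5, h, ?_, ?_, ?_, fun _ => ⟨x1, hx1⟩⟩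
      · exact fun x hx => g0 x1 x hx1 hx
      · exact fun x hx => g3 x x1 hx hx1
      · exact fun x hx => E5 ⟨x, hx⟩
  · by_cases E2 : ∃ x, TypeA R v2 v3 v4 v5 v1 x
    · obtain ⟨x2, hx2⟩ := E2
      refine ⟨v2, v3, v4, v5, v1, r1, ?_, ?_, ?_, fun _ => ⟨x2, hx2⟩⟩
      · exact fun x hx => g1 x2 x hx2 hx
      · exact fun x hx => g4 x x2 hx hx2
      · exact fun x hx => E1 ⟨x, hx⟩
    · by_cases E3 : ∃ x, TypeA R v3 v4 v5 v1 v2 x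
      · obtain ⟨x3, hx3⟩ := E3
        refine ⟨v3, v4, v5, v1, v2, r2, ?_, ?_, ?_, fun _ => ⟨x3, hx3⟩⟩
        · exact fun x hx => g2 x3 x hx3 hx
        · exact fun x hx => E1 ⟨x, hx⟩
        · exact fun x hx => E2 ⟨x, hx⟩
      · by_cases E4 : ∃ x, TypeA R v4 v5 v1 v2 v3 x
        · obtain ⟨x4, hx4⟩ := E4
          refine ⟨v4, v5, v1, v2, v3, r3, ?_, ?_, ?_, fun _ => ⟨x4, hx4⟩⟩
          · exact fun x hx => E1 ⟨x, hx⟩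
          · exact fun x hx => E2 ⟨x, hx⟩
          · exact fun x hx => E3 ⟨x, hx⟩
        · by_cases E5 : ∃ x, TypeA R v5 v1 v2 v3 v4 x
          · obtain ⟨x5, hx5⟩ := E5
            refine ⟨v5, v1, v2, v3, v4, r4, ?_, ?_, ?_, fun _ => ⟨x5, hx5⟩⟩
            · exact fun x hx => E2 ⟨x, hx⟩
            · exact fun x hx => E3 ⟨x, hx⟩
            · exact fun x hx => E4 ⟨x, hx⟩
          · exact ⟨v1, v2, v3, v4, v5, h, fun x hx => E3 ⟨x, hx⟩, fun x hx => E4 ⟨x, hx⟩,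
              fun x hx => E5 ⟨x, hx⟩, fun ⟨x, hx⟩ => absurd ⟨x, hx⟩ E2⟩

/-- The main statement for relations. -/
theorem main_rel (hR : FreeRel R)
    (hhole : (∃ v1 v2 v3 v4 v5, Pent R v1 v2 v3 v4 v5) ∨
      ∃ c0 c1 c2 c3 c4 c5, Hex R c0 c1 c2 c3 c4 c5) :
    ∃ K : Set V, (∀ x ∈ K, ∀ y ∈ K, x ≠ y → R x y) ∧
      ∀ S : Set V, (∀ x ∈ S, x ∉ K) → ¬ Cyc R S := by
  by_cases hp : ∃ v1 v2 v3 v4 v5, Pent R v1 v2 v3 v4 v5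
  · obtain ⟨v1, v2, v3, v4, v5, h⟩ := hp
    obtain ⟨w1, w2, w3, w4, w5, hw, h3, h4, h5, h12⟩ := exists_good hR h
    refine ⟨{x | R x w3 ∧ R x w5}, ?_, ?_⟩
    · rintro x ⟨hx3, hx5⟩ y ⟨hy3, hy5⟩ hne
      by_contra hn
      exact hR.Q w3 x w5 y (hR.sym _ _ hx3) hx5 (hR.sym _ _ hy5) hy3 hw.n35 hw.d35 hn hne
    · intro S hSK hS
      exact pent_case hR hw h3 h4 h5 h12 hS hSK
  · have hno : ∀ v1 v2 v3 v4 v5, ¬ Pent R v1 v2 v3 v4 v5 := fun v1 v2 v3 v4 v5 h =>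
      hp ⟨v1, v2, v3, v4, v5, h⟩
    rcases hhole with hh | ⟨c0, c1, c2, c3, c4, c5, h⟩
    · exact absurd hh hp
    · refine ⟨{x | R x c1 ∧ R x c5}, ?_, ?_⟩
      · rintro x ⟨hx1, hx5⟩ y ⟨hy1, hy5⟩ hne
        by_contra hn
        exact hR.Q c1 x c5 y (hR.sym _ _ hx1) hx5 (hR.sym _ _ hy5) hy1 h.n15 h.d15 hn hne
      · intro S hSK hS
        exact hex_case hR hno h hS hSK

end Pool.Q185.CK
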